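import Pool.Agent.P.MP_119182_lc.AE.TEND

/-! The end step with finger jumps on the exceptional accesses. -/

set_option autoImplicit false

namespace Pool.Agent.P.MP_119182_lc.AF

open Finset
open scoped Classical
open NU.Avg (term term_mem one_le_term last_spec)
open AE (Wit end_best end_wit end_new end_few)

/-- The bound with witnesses. -/
def S_LOCP : Prop :=
  ∀ ε : ℝ, 0 < ε → ∃ C : ℝ, ∀ (n u m : ℕ) (T : BT) (a s v : ℕ → ℕ) (E : Finset ℕ),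
    T.keys = List.range' 1 n → (∀ i < m, 1 ≤ a i ∧ a i ≤ n) → Wit u m a s v E →
    (cost T ((List.range m).map a) : ℝ) ≤
      C * (((∑ i ∈ (range m).filter (fun i => i ∉ E), (v i + 1) +
        (n + m) * (Nat.log 2 (u + 1) + 1) ^ 8 + n * (u + 1) + #E * (u + 1) : ℕ) : ℝ) +
        ∑ i ∈ (range m).filter (fun i => i ∈ E),
          (Nat.log 2 (Nat.dist (a i) (a (i - 1)) + 1) : ℝ) ^ (1 + ε))

/-- The end statement. -/
def S_ENDP : Prop :=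
  ∀ ε : ℝ, 0 < ε → ∃ C : ℝ, ∀ (n m u : ℕ) (T : BT) (a : ℕ → ℕ) (E : Finset ℕ),
    T.keys = List.range' 1 n → (∀ i < m, 1 ≤ a i ∧ a i ≤ n) →
    (n : ℝ) * max 1 (Real.logb 2 n) ≤ m →
    (∀ i < m, i ∉ E → ∃ j, 1 ≤ j ∧ j ≤ n ∧ wset a i j + Nat.dist (a i) j ≤ 2 ^ u) →
    (cost T ((List.range m).map a) : ℝ) ≤
      C * (unified n m a + m * ((Nat.log 2 u : ℝ) + 1) ^ 8 +
        ∑ i ∈ E, (Nat.log 2 (Nat.dist (a i) (a (i - 1)) + 1) : ℝ) ^ (1 + ε))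

theorem endp_mono (k : ℕ) {x y : ℝ} (hx : 0 < x) (h : x ≤ y) : (k : ℝ) ^ x ≤ (k : ℝ) ^ y := by
  rcases Nat.eq_zero_or_pos k with rfl | hk
  · rw [Nat.cast_zero, Real.zero_rpow hx.ne']
    exact Real.rpow_nonneg le_rfl _
  · exact Real.rpow_le_rpow_of_exponent_le (by exact_mod_cast hk) h

theorem endp_lg (u : ℕ) : Nat.log 2 (u + 1) ≤ Nat.log 2 u + 1 := by
  rcases Nat.eq_zero_or_pos u with rfl | hu
  · simp
  · rw [← Nat.log_mul_base one_lt_two hu.ne']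
    exact Nat.log_mono_right (by omega)

theorem p_ENDP (hLOC : S_LOCP) (hFIN : AD.S_FIN) : S_ENDP := by
  intro ε hε
  have hδ : 0 < min ε 4 := lt_min hε (by norm_num)
  obtain ⟨C0, h1⟩ := hLOC _ hδ
  obtain ⟨C2, h2⟩ := hFIN
  obtain ⟨C1, p1, q1⟩ : ∃ C1 : ℝ, 0 ≤ C1 ∧ C0 ≤ C1 := ⟨max C0 0, le_max_right _ _, le_max_left _ _⟩
  refine ⟨7000 * C2 + 500000 * C1, fun n m u T a E hT ha hm hE => ?_⟩
  have p2 : (0 : ℝ) ≤ C2 := Nat.cast_nonneg _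
  have p3 : (0 : ℝ) ≤ m * ((Nat.log 2 u : ℝ) + 1) ^ 8 := by positivity
  have p4 : (0 : ℝ) ≤ ∑ i ∈ E, (Nat.log 2 (Nat.dist (a i) (a (i - 1)) + 1) : ℝ) ^ (1 + ε) :=
    sum_nonneg fun i _ => Real.rpow_nonneg (Nat.cast_nonneg _) _
  rcases Nat.eq_zero_or_pos n with rfl | hn
  · rcases Nat.eq_zero_or_pos m with rfl | hm0
    · simp only [List.range_zero, List.map_nil, cost, unified, range_zero, sum_empty,
        Nat.cast_zero]
      positivity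
    · have := ha 0 hm0
      omega
  have k8 := NU.le_unified hn m a
  have p0 : (0 : ℝ) ≤ m := Nat.cast_nonneg _
  have p5 : (0 : ℝ) ≤ unified n m a := p0.trans k8
  have g1 := endp_lg u
  by_cases hc : Nat.log 2 n ≤ 2 * u + 2
  · have a1 : Nat.log 2 (Nat.log 2 n) ≤ Nat.log 2 (u + 1) + 1 := by
      rw [← Nat.log_mul_base one_lt_two (show u + 1 ≠ 0 by omega)]
      exact Nat.log_mono_right (by omega)
    have a2 : m * (Nat.log 2 (Nat.log 2 n) + 1) ^ 8 ≤ 6561 * (m * (Nat.log 2 u + 1) ^ 8) :=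
      calc _ ≤ m * (3 * (Nat.log 2 u + 1)) ^ 8 :=
            Nat.mul_le_mul_left _ (Nat.pow_le_pow_left (by omega) 8)
        _ = _ := by ring
    have a3 : (m : ℝ) * ((Nat.log 2 (Nat.log 2 n) : ℝ) + 1) ^ 8 ≤
        6561 * (m * ((Nat.log 2 u : ℝ) + 1) ^ 8) := by exact_mod_cast a2
    have a4 := h2 n m T a hT ha hm
    generalize (m : ℝ) * ((Nat.log 2 (Nat.log 2 n) : ℝ) + 1) ^ 8 = X at a3 a4
    generalize (m : ℝ) * ((Nat.log 2 u : ℝ) + 1) ^ 8 = Y at a3 p3 ⊢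
    generalize ∑ i ∈ E, (Nat.log 2 (Nat.dist (a i) (a (i - 1)) + 1) : ℝ) ^ (1 + ε) = Z at p4 ⊢
    generalize unified n m a = U at a4 p5 ⊢
    nlinarith [mul_le_mul_of_nonneg_left a3 p2, mul_nonneg p1 p3, mul_nonneg p1 p4,
      mul_nonneg p1 p5, mul_nonneg p2 p4, mul_nonneg p2 p5, mul_nonneg p2 p3]
  obtain ⟨D, hD⟩ : ∃ D, D = (range m).filter fun i => i ∈ E ∧ (u : ℝ) + 1 ≤ 3 * term n a i :=
    ⟨_, rfl⟩
  have w : ∀ i, ∃ s v : ℕ, (v : ℝ) + 1 ≤ 3 * term n a i ∧ (i < m → i ∉ D → v ≤ u ∧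
      ((s < i ∧ #((Ioc s i).image a) + Nat.dist (a i) (a s) ≤ 2 ^ v) ∨
      ((¬ ∃ r < i, a r = a i) ∧ #((Ioc 0 i).image a) ≤ 2 ^ v))) := fun i => by
    obtain ⟨j, v, b1, b2⟩ := end_best hn a i
    by_cases hv : v ≤ u
    · obtain ⟨s, b3⟩ := end_wit a i j v b2
      exact ⟨s, v, b1, fun _ _ => ⟨hv, b3⟩⟩
    have b5 : (u : ℝ) ≤ v := by exact_mod_cast (not_le.1 hv).le
    by_cases hi : i < m ∧ i ∉ E
    · obtain ⟨j', -, -, b4⟩ := hE i hi.1 hi.2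
      obtain ⟨s, b3⟩ := end_wit a i j' u b4
      exact ⟨s, u, by linarith, fun _ _ => ⟨le_rfl, b3⟩⟩
    · refine ⟨0, v, b1, fun c1 c2 => absurd (hD ▸ mem_filter.2 ⟨mem_range.2 c1, ?_, ?_⟩) c2⟩
      · by_contra c3
        exact hi ⟨c1, c3⟩
      · linarith
  choose s v w1 w2 using w
  obtain ⟨F, hF⟩ : ∃ F, F = (range m).filter fun i =>
      (¬ ∃ r < i, a r = a i) ∧ #((Ioc 0 i).image a) ≤ 2 ^ u := ⟨_, rfl⟩
  have f1 : #F ≤ 2 ^ u + 1 := hF ▸ end_new a m (2 ^ u)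
  have a1 := h1 n u m T a s v (D ∪ F) hT ha fun i hi hi' => by
    rw [mem_union, not_or] at hi'
    obtain ⟨b1, b2 | b2⟩ := w2 i hi hi'.1
    · exact ⟨b2.1, b1, b2.2⟩
    · exact absurd (hF ▸ mem_filter.2 ⟨mem_range.2 hi, b2.1,
        b2.2.trans (Nat.pow_le_pow_right two_pos b1)⟩) hi'.2
  obtain ⟨L, hL⟩ : ∃ L, L = Nat.log 2 n := ⟨_, rfl⟩
  rw [← hL] at hc
  have l1 : 2 ^ L ≤ n := hL ▸ Nat.pow_log_le_self 2 (by omega)
  have l3 : n * L ≤ m := by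
    have c1 : (L : ℝ) ≤ Real.logb 2 n := by
      rw [Real.le_logb_iff_rpow_le one_lt_two (by positivity), Real.rpow_natCast]
      exact_mod_cast l1
    have c2 : (n : ℝ) * L ≤ n * max 1 (Real.logb 2 n) :=
      mul_le_mul_of_nonneg_left (c1.trans (le_max_right _ _)) (Nat.cast_nonneg _)
    exact_mod_cast c2.trans hm
  have l4 : n * (u + 1) ≤ m := (Nat.mul_le_mul_left _ (by omega)).trans l3
  have l5 : n ≤ m := (Nat.le_mul_of_pos_right _ (by omega)).trans l4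
  have l6 : #F * (L + 1) ^ 5 ≤ 200000 * m :=
    ((Nat.mul_le_mul_right _ f1).trans (end_few (not_le.1 hc) l1)).trans (by omega)
  have l7 : #(D ∪ F) * (u + 1) ≤ #D * (u + 1) + 200000 * m :=
    calc _ ≤ (#D + #F) * (u + 1) := Nat.mul_le_mul_right _ (card_union_le _ _)
      _ = #D * (u + 1) + #F * (u + 1) := by ring
      _ ≤ #D * (u + 1) + #F * (L + 1) ^ 5 := Nat.add_le_add_left (Nat.mul_le_mul_left _
          ((show u + 1 ≤ L + 1 by omega).trans (Nat.le_self_pow (by norm_num) _))) _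
      _ ≤ _ := by omega
  have l8 : (n + m) * (Nat.log 2 (u + 1) + 1) ^ 8 ≤ 512 * (m * (Nat.log 2 u + 1) ^ 8) :=
    calc _ ≤ (2 * m) * (2 * (Nat.log 2 u + 1)) ^ 8 :=
          Nat.mul_le_mul (by omega) (Nat.pow_le_pow_left (by omega) 8)
      _ = _ := by ring
  have eU : ∑ i ∈ range m, 3 * term n a i = 3 * unified n m a := by
    rw [← mul_sum]
    rfl
  obtain ⟨V, hV⟩ : ∃ V, V = ∑ i ∈ (range m).filter (fun i => i ∉ D ∪ F), (v i + 1) := ⟨_, rfl⟩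
  have l9 : (V : ℝ) ≤ 3 * unified n m a := by
    have c1 : V ≤ ∑ i ∈ range m, (v i + 1) := hV ▸ sum_le_sum_of_subset (filter_subset _ _)
    have c2 : ((∑ i ∈ range m, (v i + 1) : ℕ) : ℝ) ≤ ∑ i ∈ range m, 3 * term n a i := by
      push_cast
      exact sum_le_sum fun i _ => w1 i
    exact ((Nat.cast_le.2 c1).trans c2).trans eU.le
  have l10 : ((#D * (u + 1) : ℕ) : ℝ) ≤ 3 * unified n m a := by
    have c1 : ((#D * (u + 1) : ℕ) : ℝ) = ∑ i ∈ D, ((u : ℝ) + 1) := by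
      rw [sum_const, nsmul_eq_mul]
      push_cast
      rfl
    rw [c1, ← eU]
    refine (sum_le_sum fun i hi => (mem_filter.1 (hD ▸ hi)).2.2).trans
      (sum_le_sum_of_subset_of_nonneg (hD ▸ filter_subset _ _) fun i _ _ => ?_)
    have := one_le_term hn a i
    linarith
  have l11 : ∑ i ∈ (range m).filter (fun i => i ∈ D ∪ F),
      (Nat.log 2 (Nat.dist (a i) (a (i - 1)) + 1) : ℝ) ^ (1 + min ε 4) ≤
      ∑ i ∈ E, (Nat.log 2 (Nat.dist (a i) (a (i - 1)) + 1) : ℝ) ^ (1 + ε) + 200000 * m := by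
    have c0 : ∀ i, (0 : ℝ) ≤ (Nat.log 2 (Nat.dist (a i) (a (i - 1)) + 1) : ℝ) ^ (1 + min ε 4) :=
      fun i => Real.rpow_nonneg (Nat.cast_nonneg _) _
    have c1 : (range m).filter (fun i => i ∈ D ∪ F) ⊆ E ∪ F := fun i hi => by
      rcases mem_union.1 (mem_filter.1 hi).2 with b | b
      · exact mem_union_left _ (mem_filter.1 (hD ▸ b)).2.1
      · exact mem_union_right _ b
    refine (sum_le_sum_of_subset_of_nonneg c1 fun i _ _ => c0 i).trans ?_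
    have c2 := sum_union_inter (s₁ := E) (s₂ := F)
      (f := fun i => (Nat.log 2 (Nat.dist (a i) (a (i - 1)) + 1) : ℝ) ^ (1 + min ε 4))
    have c3 := sum_nonneg fun i (_ : i ∈ E ∩ F) => c0 i
    have c4 : ∑ i ∈ E, (Nat.log 2 (Nat.dist (a i) (a (i - 1)) + 1) : ℝ) ^ (1 + min ε 4) ≤
        ∑ i ∈ E, (Nat.log 2 (Nat.dist (a i) (a (i - 1)) + 1) : ℝ) ^ (1 + ε) :=
      sum_le_sum fun i _ => endp_mono _ (by linarith) (by linarith [min_le_left ε 4])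
    have c5 : ∑ i ∈ F, (Nat.log 2 (Nat.dist (a i) (a (i - 1)) + 1) : ℝ) ^ (1 + min ε 4) ≤
        ∑ i ∈ F, (((L + 1) ^ 5 : ℕ) : ℝ) := sum_le_sum fun i hi => by
      have b1 := mem_range.1 (mem_filter.1 (hF ▸ hi)).1
      have b2 := ha i b1
      have b3 := ha (i - 1) (by omega)
      have b4 : Nat.log 2 (Nat.dist (a i) (a (i - 1)) + 1) ≤ L + 1 :=
        (Nat.log_mono_right (by unfold Nat.dist; omega)).trans (hL.ge.trans (Nat.le_succ _))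
      refine (endp_mono _ (y := ((5 : ℕ) : ℝ)) (by linarith)
        (by push_cast; linarith [min_le_right ε 4])).trans ?_
      rw [Real.rpow_natCast]
      exact_mod_cast Nat.pow_le_pow_left b4 5
    rw [sum_const, nsmul_eq_mul] at c5
    have c6 : (#F : ℝ) * (((L + 1) ^ 5 : ℕ) : ℝ) ≤ 200000 * m := by exact_mod_cast l6
    linarith
  rw [← hV] at a1
  have a2 : V + (n + m) * (Nat.log 2 (u + 1) + 1) ^ 8 + n * (u + 1) + #(D ∪ F) * (u + 1) ≤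
      V + 512 * (m * (Nat.log 2 u + 1) ^ 8) + #D * (u + 1) + 200001 * m := by omega
  have a3 : ((V + (n + m) * (Nat.log 2 (u + 1) + 1) ^ 8 + n * (u + 1) + #(D ∪ F) * (u + 1) : ℕ) :
      ℝ) ≤ V + 512 * (m * ((Nat.log 2 u : ℝ) + 1) ^ 8) + ((#D * (u + 1) : ℕ) : ℝ) + 200001 * m := by
    exact_mod_cast a2
  have a5 : (0 : ℝ) ≤ ∑ i ∈ (range m).filter (fun i => i ∈ D ∪ F),
      (Nat.log 2 (Nat.dist (a i) (a (i - 1)) + 1) : ℝ) ^ (1 + min ε 4) :=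
    sum_nonneg fun i _ => Real.rpow_nonneg (Nat.cast_nonneg _) _
  have a6 : (0 : ℝ) ≤ ((V + (n + m) * (Nat.log 2 (u + 1) + 1) ^ 8 + n * (u + 1) +
      #(D ∪ F) * (u + 1) : ℕ) : ℝ) := Nat.cast_nonneg _
  generalize ((V + (n + m) * (Nat.log 2 (u + 1) + 1) ^ 8 + n * (u + 1) + #(D ∪ F) * (u + 1) : ℕ) :
      ℝ) = X at a1 a3 a6
  generalize ∑ i ∈ (range m).filter (fun i => i ∈ D ∪ F),
      (Nat.log 2 (Nat.dist (a i) (a (i - 1)) + 1) : ℝ) ^ (1 + min ε 4) = W at a1 a5 l11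
  generalize (m : ℝ) * ((Nat.log 2 u : ℝ) + 1) ^ 8 = Y at a3 p3 ⊢
  generalize ∑ i ∈ E, (Nat.log 2 (Nat.dist (a i) (a (i - 1)) + 1) : ℝ) ^ (1 + ε) = Z at l11 p4 ⊢
  generalize unified n m a = U at l9 l10 k8 p5 ⊢
  have a4 : X + W ≤ 500000 * (U + Y + Z) := by linarith
  have a7 : C0 * (X + W) ≤ C1 * (X + W) := mul_le_mul_of_nonneg_right q1 (by linarith)
  nlinarith [mul_le_mul_of_nonneg_left a4 p1, mul_nonneg p2 p3, mul_nonneg p2 p4,
    mul_nonneg p2 p5]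

end Pool.Agent.P.MP_119182_lc.AF
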