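import Pool.Agent.P.MP_119182_lc.AE.TGAP
import Pool.Agent.P.MP_119182_lc.AE.TALL
import Pool.Agent.P.MP_119182_lc.AE.TMKC
import Pool.Agent.P.MP_119182_lc.WQ.End

/-! The link bound with a general weight for the levels that are hit. -/

set_option autoImplicit false

namespace Pool.Agent.P.MP_119182_lc.AF

open Finset
open scoped Classical
open NU (mr)
open IT (Marks One mq)
open AE
open WQ (Wt S_LQ ww)

theorem gap {A : ℕ} {wt R : ℕ → ℕ} (hw : Wt A wt R) (K : ℕ) :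
    ∃ C : ℕ, ∀ (σ J c Z : ℕ) (d : NU.Run) (Q : ℕ → Finset ℤ), d.OK →
    d.L / 2 ^ J = d.R / 2 ^ J → Marks d.L d.R d.m d.x c Z Q → One d.m d.x Q →
    K * ∑ t ∈ range d.m, GP.out (GP.its σ d.L d.R Q) d t ≤ 16 * d.NR +
      C * ((d.R - d.L).toNat + d.m + ∑ t ∈ range d.m, IT.up d (tl (σ + 1) d Q) t +
        ∑ t ∈ range d.m, IT.up d.mir (tl (σ + 1) d.mir (mq Q)) t +
        ww wt σ J d.L d.R d.m d.x Q) := by
  obtain ⟨C, hC⟩ := GP.a_LEFT K
  refine ⟨23 * K + 12 * C + 12 * (K * (K + 1)), fun σ J c Z d Q ok hJ mk one => ?_⟩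
  obtain ⟨dt, sd, lab, sy, i1⟩ := WQ.inst_le hw σ J c Z d Q ok hJ mk one
  have e := G98.lv_tl σ d Q mk.own
  have sy' : GP.Sys (GP.its σ d.L d.R Q) d (tl (σ + 1) d Q) sd dt lab :=
    ⟨ok, fun i hi => by
      unfold tl
      rw [if_pos hi]
      exact mem_filter.2 ⟨mk.own i hi, Or.inl rfl⟩, sy.items, e ▸ sy.lives, e ▸ sy.fib⟩
  have i2 : GP.inst (GP.its σ d.L d.R Q) d (tl (σ + 1) d Q) dt =
      GP.inst (GP.its σ d.L d.R Q) d Q dt := by
    unfold GP.inst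
    rw [e]
  have l1 := hC _ d _ dt sd lab sy'
  have l2 := GP.p_RIGHT IT.p_TWO NU.a_EMIR K _ d _ dt sd lab sy'
  rw [i2] at l1 l2
  rw [G98.tl_mir]
  have s1 : ∑ t ∈ range d.m, GP.out (GP.its σ d.L d.R Q) d t ≤
      ∑ t ∈ range d.m, (IT.up d (tl (σ + 1) d Q) t + 4 +
      2 * (#((GP.own (GP.its σ d.L d.R Q) d (tl (σ + 1) d Q) t).filter fun B => sd t B) +
        #((GP.own (GP.its σ d.L d.R Q) d (tl (σ + 1) d Q) t).filter fun B => ¬ sd t B))) :=
    sum_le_sum fun t ht => by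
      rw [card_filter_add_card_filter_not]
      exact GP.p_CLS IT.p_TWO _ d _ ok sy.items t (mem_range.1 ht)
  simp only [sum_add_distrib, ← mul_sum, sum_const, card_range, smul_eq_mul] at s1
  generalize (d.R - d.L).toNat = n at *
  exact GP.GAPx.num s1 l1 l2 (by omega) (by omega) (by omega) (by omega)

open GP in
theorem link {A : ℕ} {wt R : ℕ → ℕ} (hw : Wt A wt R) (hT : S_LQ wt) :
    ∃ C : ℕ, ∀ (σ J c Z : ℕ) (d : NU.Run) (Q : ℕ → Finset ℤ), d.OK →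
    d.L / 2 ^ J = d.R / 2 ^ J → Marks d.L d.R d.m d.x c Z Q → One d.m d.x Q →
    200 * (d.LamR + d.mir.LamR) ≤ d.NR + d.mir.NR +
      C * ((d.R - d.L).toNat + d.m + ww wt σ J d.L d.R d.m d.x Q +
        ∑ t ∈ range d.m, IT.int (σ + 1) d t + ∑ t ∈ range d.m, IT.int (σ + 1) d.mir t +
        ∑ t ∈ range d.m, IT.up d (tl (σ + 1) d Q) t +
        ∑ t ∈ range d.m, IT.up d.mir (tl (σ + 1) d.mir (mq Q)) t) := by
  obtain ⟨C1, hC⟩ := hT
  obtain ⟨C2, hG⟩ := gap hw (8 * (C1 + 800))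
  obtain ⟨B, hB⟩ : ∃ B, B = A * R 1 * 150 := ⟨_, rfl⟩
  refine ⟨(C1 + 800) + C2 + C1 * (B + 1), fun σ J c Z d Q ok hJ mk one => ?_⟩
  have okm := (NU.a_EMIR d).2 ok
  obtain ⟨-, m1, m2, -⟩ := p_MIRW σ J d.L d.R d.m d.x Q
  have l1 := hC σ J d (cold σ d Q) ok (p_COLD p_ITEM σ c Z d Q mk) hJ
  have l2 := WQ.liv hw σ J c Z d Q mk
  rw [← mul_assoc, ← hB] at l2
  obtain ⟨-, s1, s2⟩ := p_SIDE d ok
  have s2 := s2 (cold σ d Q)
  have n1 := p_NPB p_ITEM p_SIDE p_MIRW IT.p_TWO NU.a_EMIR σ d Q ok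
  have g1 := hG σ J c Z d Q ok hJ mk one
  have g2 := hG σ J c Z d.mir (mq Q) okm (m1 hJ) (IT.p_LAZY _ _ _ _ _ _ _ mk).2 (m2 one)
  have k1 : (d.mir.R - d.mir.L).toNat = (d.R - d.L).toNat := by
    change (mr d.L - mr d.R).toNat = _
    unfold mr
    omega
  have k2 : d.mir.m = d.m := rfl
  have k3 : ww wt σ J d.mir.L d.mir.R d.m d.mir.x (mq Q) = ww wt σ J d.L d.R d.m d.x Q :=
    WQ.ww_mr wt σ J d.L d.R d.m d.x Q
  rw [ALLc.mq_mq, (NU.a_EMIR d).1, k1, k2, k3] at g2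
  rw [sum_add_distrib, sum_add_distrib] at n1
  generalize (d.R - d.L).toNat = n at *
  generalize ww wt σ J d.L d.R d.m d.x Q = w at *
  generalize ∑ t ∈ range d.m, IT.int (σ + 1) d t = I1 at *
  generalize ∑ t ∈ range d.m, IT.int (σ + 1) d.mir t = I2 at *
  generalize ∑ t ∈ range d.m, IT.up d (tl (σ + 1) d Q) t = U1 at *
  generalize ∑ t ∈ range d.m, IT.up d.mir (tl (σ + 1) d.mir (mq Q)) t = U2 at *
  obtain ⟨X, hX⟩ : ∃ X, X = n + d.m + w + I1 + I2 + U1 + U2 := ⟨_, rfl⟩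
  rw [← hX]
  have w3 : C2 * (n + d.m + U1 + U2 + w) ≤ C2 * X := Nat.mul_le_mul_left _ (by omega)
  have w4 : C2 * (n + d.m + U2 + U1 + w) ≤ C2 * X := Nat.mul_le_mul_left _ (by omega)
  generalize ∑ t ∈ range d.m, out (its σ d.L d.R Q) d t = O1 at *
  generalize ∑ t ∈ range d.m, out (its σ d.mir.L d.mir.R (mq Q)) d.mir t = O2 at *
  generalize #(LP.NP d (cold σ d Q)) = P at *
  have w5 : (C1 + 800) * P ≤ (C1 + 800) * (X + O1 + O2) := Nat.mul_le_mul_left _ (by omega)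
  have w7 : B * n ≤ B * X := Nat.mul_le_mul_left _ (by omega)
  have w6 : C1 * (n + d.m + P + I1 + I2 +
      ∑ j ∈ range J, wt (j - σ) * #(LP.LV d (cold σ d Q) j)) ≤
      C1 * (P + (B * X + X)) := Nat.mul_le_mul_left _ (by omega)
  rw [mul_assoc] at g1 g2
  have e1 : (C1 + 800) * (X + O1 + O2) =
      C1 * X + 800 * X + (C1 + 800) * O1 + (C1 + 800) * O2 := by ring
  have e2 : C1 * (P + (B * X + X)) = C1 * P + C1 * (B * X + X) := by ring
  have e3 : (C1 + 800) * P = C1 * P + 800 * P := by ring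
  have e4 : (C1 + 800 + C2 + C1 * (B + 1)) * X =
      C1 * X + 800 * X + C2 * X + C1 * (B * X + X) := by ring
  omega

theorem all {A : ℕ} {wt R : ℕ → ℕ} (hw : Wt A wt R) (hT : S_LQ wt) (hABS : S_ABS)
    (hWARM : S_WARM) (hMIR : S_MIR) :
    ∃ C : ℕ, ∀ (σ J c Z c' Z' : ℕ) (d : NU.Run) (S : Sys) (Q Q' : ℕ → Finset ℤ), OK d S →
    d.L / 2 ^ J = d.R / 2 ^ J → Marks d.L d.R d.m d.x c Z Q → One d.m d.x Q →
    Marks d.L d.R d.m d.x c' Z' Q' → (∀ j < S.J, ∀ t c, 1 ≤ S.om j t c) →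
    (∀ a b, S.cell S.J a = S.cell S.J b ↔ a / 2 ^ (σ + 1) = b / 2 ^ (σ + 1)) →
    (∀ t < d.m, ∀ z ∈ Q t, z ∈ Q' t ∨ z / 2 ^ (σ + 1) = d.x t / 2 ^ (σ + 1) ∨
      2 ≤ S.om S.J t (S.cell S.J z)) →
    100 * (d.LamR + d.mir.LamR) ≤ d.NR + d.mir.NR +
      C * (((d.R - d.L).toNat + d.m) * (S.J + 1) * (Nat.size (ht S) + 1) ^ 7 + BB0 d S + BB1 d S +
        TV.sw (d.R - d.L).toNat d.m Q' + ww wt σ J d.L d.R d.m d.x Q) := by
  obtain ⟨C, hC⟩ := link hw hT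
  obtain ⟨C', hA⟩ := hABS (2 * C)
  refine ⟨3 * C + C', fun σ J c Z c' Z' d S Q Q' ok hJ mk one mk' h1 h2 h3 => ?_⟩
  have l := hC σ J c Z d Q ok.ok hJ mk one
  have a := hA d S ok
  have okm := (hMIR d S).1 ok
  have sm := LP.p_SM.2.2.2.1 (σ + 1)
  obtain ⟨w1, w2⟩ := hWARM (σ + 1) d S Q Q' ok h1 h2 h3
  obtain ⟨w3, w4⟩ := hWARM (σ + 1) d.mir S.mir (mq Q) (mq Q') okm (fun j hj t c => h1 j hj t (-c))
    (fun a b => by
      change -S.cell S.J (mr a) = -S.cell S.J (mr b) ↔ _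
      rw [neg_inj, h2]
      exact sm a b)
    (fun t ht z hz => by
      obtain ⟨y, hy, rfl⟩ := mem_image.1 hz
      rcases h3 t ht y hy with h | h | h
      · exact Or.inl (mem_image_of_mem _ h)
      · exact Or.inr (Or.inl ((sm y (d.x t)).2 h))
      · refine Or.inr (Or.inr ?_)
        change 2 ≤ S.om S.J t (- -S.cell S.J (mr (mr y)))
        rwa [neg_neg, ALLc.mr_mr])
  have u1 := TV.up ok.ok mk'
  have u2 := TV.up (d := d.mir) (Q := mq Q') okm.ok (IT.p_LAZY _ _ _ _ _ _ _ mk').2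
  have k1 : (d.mir.R - d.mir.L).toNat = (d.R - d.L).toNat := by
    change (mr d.L - mr d.R).toNat = _
    unfold mr
    omega
  have k2 : d.mir.m = d.m := rfl
  rw [k1, k2, TV.sw_mq] at u2
  rw [k2] at w3 w4
  have p1 : (d.R - d.L).toNat + d.m ≤
      ((d.R - d.L).toNat + d.m) * (S.J + 1) * (Nat.size (ht S) + 1) ^ 7 := by
    rw [mul_assoc]
    exact Nat.le_mul_of_pos_right _ (by positivity)
  generalize ((d.R - d.L).toNat + d.m) * (S.J + 1) * (Nat.size (ht S) + 1) ^ 7 = A at *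
  generalize TV.sw (d.R - d.L).toNat d.m Q' = V at *
  generalize ww wt σ J d.L d.R d.m d.x Q = w at *
  generalize (d.R - d.L).toNat = n at *
  generalize #(WM d S) = W1 at *
  generalize #(WM d.mir S.mir) = W2 at *
  obtain ⟨X, hX⟩ : ∃ X, X = A + BB0 d S + BB1 d S + V + w := ⟨_, rfl⟩
  rw [← hX]
  have q1 := l.trans (Nat.add_le_add_left (Nat.mul_le_mul_left C
    (show _ ≤ 3 * X + 2 * (W1 + W2) by omega)) _)
  have q2 : C' * (A + BB0 d S + BB1 d S) ≤ C' * X := Nat.mul_le_mul_left _ (by omega)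
  have e1 : C * (3 * X + 2 * (W1 + W2)) = 3 * (C * X) + 2 * C * (W1 + W2) := by ring
  have e2 : (3 * C + C') * X = 3 * (C * X) + C' * X := by ring
  omega

/-- The earlier access that is compared with access `i`. -/
noncomputable def pr (s : ℕ → ℕ) (E : Finset ℕ) (i : ℕ) : ℕ := if i ∈ E then i - 1 else s i

/-- The weight of the levels at which an access and the earlier access are separated. -/
noncomputable def SQ (wt : ℕ → ℕ) (σ J m : ℕ) (y : ℕ → ℤ) (s : ℕ → ℕ) (E : Finset ℕ) : ℕ :=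
  ∑ i ∈ range m, ∑ j ∈ Ioo σ J, if y i / 2 ^ j ≠ y (pr s E i) / 2 ^ j then wt (j - σ) else 0

theorem mkc (wt : ℕ → ℕ) (σ J m : ℕ) (L R : ℤ) (y : ℕ → ℤ) (s : ℕ → ℕ) (E : Finset ℕ)
    (hot : ℕ → ℤ → Prop) (h : Hot (σ + 1) m L R y s E hot) :
    ww wt σ J L R (4 * m) (fun q => y (q / 4)) (QM (σ + 1) m y s E hot) ≤ SQ wt σ J m y s E := by
  rw [SQ, ← MKCy.sum_four]
  rcases Nat.eq_zero_or_pos m with rfl | hm
  · simp [ww]
  obtain ⟨M, hM⟩ : ∃ M, 4 * m = M + 1 := ⟨4 * m - 1, by omega⟩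
  rw [ww, hM, Nat.add_sub_cancel, sum_range_succ']
  refine le_trans (sum_le_sum fun t ht => ?_) (Nat.le_add_right _ _)
  have h1 : t + 1 < 4 * m := by have := mem_range.1 ht; omega
  by_cases g1 : 4 ∣ t + 1
  · rw [if_pos g1]
    obtain ⟨i, hi⟩ := g1
    have e0 : (t + 1) / 4 = i := by omega
    rw [e0, GP.hit, sum_filter]
    refine sum_le_sum fun j hj => ?_
    have hj' : σ + 1 ≤ j := (mem_Ioo.1 hj).1
    simp only [e0]
    split_ifs with c1 c2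
    · exact le_rfl
    · exfalso
      by_cases g2 : i ∈ E
      · rw [pr, if_pos g2, show i - 1 = t / 4 by omega] at c2
        exact c1.2.2 _ (mem_union_right _ (mem_insert_self _ _)) (not_not.1 c2).symm
      rw [pr, if_neg g2] at c2
      obtain ⟨b1, b2⟩ := h.wit i (by omega) g2
      by_cases e : y i / 2 ^ (σ + 1) = y (s i) / 2 ^ (σ + 1)
      · have e1 : (4 * s i + 3) / 4 = s i := by omega
        have h3 := h.near (4 * s i + 3) (t + 1) (by omega) h1 (by rw [e0, e1, e])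
          (by rw [hi]; exact (MKCy.dst_four y _ _).trans b2)
        rw [e0] at h3
        obtain ⟨z, hz, e'⟩ := MKCy.hh_ex h.zero h.keep _ t (by omega) h3
        exact c1.2.2 z (mem_union_left _ hz) (MKCy.up_eq hj' e')
      · exact c1.2.2 _ (mem_union_right _ (mem_insert_of_mem (mem_image.2
          ⟨i, mem_filter.2 ⟨mem_range.2 (by omega), g2, e, by omega, by omega⟩, rfl⟩)))
          (not_not.1 c2).symm
    · exact Nat.zero_le _
    · exact le_rfl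
  · rw [if_neg g1]
    refine le_of_eq (sum_eq_zero fun j hj => absurd ?_
      ((mem_filter.1 hj).2.2.2 (y (t / 4)) (mem_union_right _ (mem_insert_self _ _))))
    beta_reduce
    rw [show (t + 1) / 4 = t / 4 by omega]

theorem avq {A B : ℕ} {wt R G : ℕ → ℕ} (hw : Wt A wt R) (hG : ∀ l, R (l + 1) ≤ B * (G l + 1))
    (hm : Monotone G) (u m σ T' : ℕ) (a s v : ℕ → ℕ) (E : Finset ℕ) (hW : Wit u m a s v E)
    (hu : u ≤ σ) :
    ∑ h ∈ range (2 ^ T'), SQ wt σ (T' + 1) m (fun i => (a i : ℤ) + h) s E ≤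
      2 ^ T' * ((300 * A + 1) * B * ((G 1 + 1) * m +
        ∑ i ∈ E, G (Nat.log 2 (Nat.dist (a i) (a (i - 1)) + 1)))) := by
  have e : ∀ h : ℕ, SQ wt σ (T' + 1) m (fun i => (a i : ℤ) + h) s E =
      ∑ i ∈ range m, ∑ j ∈ Ioo σ (T' + 1),
        if (a i + h) / 2 ^ j ≠ (a (pr s E i) + h) / 2 ^ j then wt (j - σ) else 0 := by
    intro h
    unfold SQ
    refine sum_congr rfl fun i _ => sum_congr rfl fun j _ => if_congr ?_ rfl rfl
    have k : ∀ w : ℕ, ((w : ℤ) + h) / 2 ^ j = (((w + h) / 2 ^ j : ℕ) : ℤ) := fun w => by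
      push_cast
      rfl
    simp only [k, ne_eq, Nat.cast_inj]
  simp only [e]
  rw [sum_comm]
  have k1 : ∑ i ∈ range m, (G 1 + 1 +
      if i ∈ E then G (Nat.log 2 (Nat.dist (a i) (a (i - 1)) + 1)) else 0) ≤
      (G 1 + 1) * m + ∑ i ∈ E, G (Nat.log 2 (Nat.dist (a i) (a (i - 1)) + 1)) := by
    rw [sum_add_distrib, sum_const, card_range, smul_eq_mul, mul_comm, ← sum_filter]
    exact Nat.add_le_add_left (sum_le_sum_of_subset fun i hi => (mem_filter.1 hi).2) _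
  refine le_trans ?_ (Nat.mul_le_mul_left _ (Nat.mul_le_mul_left _ k1))
  rw [mul_sum, mul_sum]
  refine sum_le_sum fun i hi => (WQ.avg hw σ T' (a i) (a (pr s E i)) _ rfl).trans
    (Nat.mul_le_mul_left _ ?_)
  rw [mul_assoc]
  refine Nat.mul_le_mul_left _ ((hG _).trans (Nat.mul_le_mul_left _ ?_))
  by_cases g : i ∈ E
  · rw [pr, if_pos g, if_pos g]
    have := hm (Nat.log_mono_right (b := 2) (Nat.add_le_add_right
      (Nat.div_le_self (Nat.dist (a i) (a (i - 1))) (2 ^ σ)) 1))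
    omega
  · rw [pr, if_neg g, if_neg g]
    obtain ⟨-, w2, w3⟩ := hW i (mem_range.1 hi) g
    have w4 : 2 ^ v i ≤ 2 ^ σ := Nat.pow_le_pow_right two_pos (w2.trans hu)
    have w5 : Nat.dist (a i) (a (s i)) / 2 ^ σ ≤ 1 :=
      (Nat.div_le_div_right (by omega)).trans (Nat.div_self (Nat.two_pow_pos σ)).le
    have w6 : Nat.log 2 (Nat.dist (a i) (a (s i)) / 2 ^ σ + 1) ≤ 1 :=
      (Nat.log_mono_right (Nat.succ_le_succ w5)).trans (by norm_num)
    have := hm w6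
    omega

end Pool.Agent.P.MP_119182_lc.AF
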