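import Pool.Agent.P.MP_119182_lc.AF.Iface
import Pool.Agent.P.MP_119182_lc.AF.Link

/-! The link bound for one shift, and the bound with witnesses. -/

set_option autoImplicit false

namespace Pool.Agent.P.MP_119182_lc.AF

open Finset
open scoped Classical
open NU (mr)
open IT (Marks One mq)
open AE hiding S_LOC S_END
open WQ (Wt S_LQ ww gq)

theorem run {A B : ℕ} {wt R G : ℕ → ℕ} (hwt : Wt A wt R) (hT : S_LQ wt)
    (hG : ∀ l, R (l + 1) ≤ B * (G l + 1)) (hmo : Monotone G) (hABS : S_ABS) (hWARM : S_WARM)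
    (hMIR : S_MIR) (hBUD : S_BUD) (hMKA : S_MKA) (hMKB : S_MKB) (hAVA : S_AVA) (hAVC : S_AVC) :
    ∃ C : ℕ, ∀ (n u m : ℕ) (a s v : ℕ → ℕ) (E : Finset ℕ), 1 ≤ n → (∀ i < m, 1 ≤ a i ∧ a i ≤ n) →
    Wit u m a s v E → ∃ h : ℕ, ∀ d : NU.Run, d.OK → d.L = h → d.R = (h : ℤ) + n + 1 → d.m = 4 * m →
      (d.x = fun q => (a (q / 4) : ℤ) + h) →
      100 * (d.LamR + d.mir.LamR) ≤ d.NR + d.mir.NR +
        C * (∑ i ∈ (range m).filter (fun i => i ∉ E), (v i + 1) +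
          (n + m) * (Nat.log 2 (u + 1) + 1) ^ 8 + n * (u + 1) + #E * (u + 1) +
          ∑ i ∈ E, G (Nat.log 2 (Nat.dist (a i) (a (i - 1)) + 1))) := by
  obtain ⟨Cl, hl⟩ := all hwt hT hABS hWARM hMIR
  obtain ⟨Cb, hb⟩ := hBUD
  obtain ⟨Ca, ha⟩ := hAVA
  obtain ⟨Cq, hCq⟩ : ∃ Cq, Cq = (300 * A + 1) * B := ⟨_, rfl⟩
  obtain ⟨D, hD⟩ : ∃ D, D = 8 * Ca + Cq * (G 1 + 1) + 4 := ⟨_, rfl⟩
  refine ⟨Cl * (16 * (Cb + 7) ^ 7 + Cb * (16 + D) + 22 + 6 * D),
    fun n u m a s v E hn ha1 hw => ?_⟩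
  obtain ⟨g, hg⟩ : ∃ g, g = Nat.log 2 (u + 1) + 1 := ⟨_, rfl⟩
  obtain ⟨P, hP⟩ : ∃ P, P = ∑ i ∈ E, G (Nat.log 2 (Nat.dist (a i) (a (i - 1)) + 1)) := ⟨_, rfl⟩
  rw [← hg, ← hP]
  have g1 : 1 ≤ g := by omega
  have g2 : u + 1 < 2 ^ g := by rw [hg]; exact Nat.lt_pow_succ_log_self (by norm_num) _
  have g3 : 2 ^ g ≤ 2 * (u + 1) := by
    have := Nat.pow_log_le_self 2 (x := u + 1) (by omega)
    rw [hg, pow_succ]; omega
  obtain ⟨σ, hσ⟩ : ∃ σ, σ + 1 = 2 ^ (g + 1) := ⟨2 ^ (g + 1) - 1, by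
    have : 0 < 2 ^ (g + 1) := by positivity
    omega⟩
  have g4 : σ + 1 = 2 * 2 ^ g := by rw [hσ, pow_succ]; omega
  obtain ⟨T', hT'⟩ : ∃ T', T' = Nat.log 2 (n + 1) + 1 + (σ + 1) := ⟨_, rfl⟩
  have t1 : n + 1 < 2 ^ T' :=
    (Nat.lt_pow_succ_log_self (by norm_num) _).trans_le
      (Nat.pow_le_pow_right (by norm_num) (by omega))
  obtain ⟨V, hV⟩ : ∃ V, V = ∑ i ∈ (range m).filter (fun i => i ∉ E), (v i + 1) := ⟨_, rfl⟩
  have a1 := ha n u m (g + 1) T' a s v E hw (by omega)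
  have a2 := avq hwt hG hmo u m σ T' a s v E hw (by omega)
  rw [← hCq, ← hP] at a2
  have a3 := hAVC u m (σ + 1) T' a s v E hw (by omega) (by omega)
  rw [← hV] at a1 ⊢
  obtain ⟨h, hh, hf⟩ := exists_le_of_sum_le (s := range (2 ^ T'))
    (f := fun h : ℕ => NU.MM (fun q => (a (q / 4) : ℤ) + h) n (4 * m) (g + 1) +
      SQ wt σ (T' + 1) m (fun i => (a i : ℤ) + h) s E +
      ∑ t ∈ range (4 * m), #(PP (σ + 1) m (fun i => (a i : ℤ) + h) s E t))
    (g := fun _ => Ca * (V + m + (n + 1 + #E) * 2 ^ (g + 1)) + Cq * ((G 1 + 1) * m + P) + 4 * m)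
    ⟨0, mem_range.2 (by positivity)⟩ (by
      rw [sum_add_distrib, sum_add_distrib, sum_comm, sum_const, card_range, smul_eq_mul]
      have := sum_le_card_nsmul (range (4 * m)) _ _ fun t _ => a3 t
      rw [card_range, smul_eq_mul, mul_comm (4 * m)] at this
      rw [mul_add, mul_add]
      omega)
  have hh' := mem_range.1 hh
  refine ⟨h, fun d ok d1 d2 d3 d4 => ?_⟩
  obtain ⟨S, s1, s2, s3, s4, s5, s6, s7, s8⟩ := hb (g + 1) n d ok (by omega) (by omega)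
  rw [← hσ] at s5 s7
  have hot : Hot (σ + 1) m d.L d.R (fun i => (a i : ℤ) + h) s E
      fun t c => 2 ≤ S.om S.J t c := by
    refine ⟨fun i hi => ?_, fun i hi hE => ⟨(hw i hi hE).1, ?_⟩, fun t c ht hc => ?_,
      fun c => not_le.2 (s6 c), fun r t h1 h2 h3 h4 => ?_⟩
    · have := ha1 i hi
      omega
    · obtain ⟨-, w2, w3⟩ := hw i hi hE
      have e : (Ioc (s i) i).image (fun i => (a i : ℤ) + h) =
          ((Ioc (s i) i).image a).image fun w : ℕ => (w : ℤ) + h := by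
        rw [image_image]; rfl
      have : 2 ^ v i ≤ 2 ^ (σ + 1) := Nat.pow_le_pow_right (by norm_num) (by omega)
      unfold NU.dst
      rw [e]
      exact card_image_le.trans (by omega)
    · rw [s3.keep S.J t c (by omega) (by rw [s5, d4]; exact hc)]
    · have := s7 r t h1 (by omega) (by rw [d4]; exact h3) (by rw [d4]; exact h4)
      rw [d4] at this
      exact this
  obtain ⟨⟨c, Z, m1⟩, ⟨c', Z', m2⟩, m3, m4⟩ := hMKA _ _ _ _ _ _ _ _ hot
  have m5 := hMKB _ _ _ _ _ _ _ _ hot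
  have m6 := mkc wt σ (T' + 1) _ _ _ _ _ _ _ hot
  have hJ : d.L / 2 ^ (T' + 1) = d.R / 2 ^ (T' + 1) := by
    have h1 : ((h + n + 1 : ℕ) : ℤ) < ((2 ^ (T' + 1) : ℕ) : ℤ) := by
      rw [Nat.cast_lt, pow_succ]; omega
    push_cast at h1
    rw [d1, d2, Int.ediv_eq_zero_of_lt (by omega) (by omega),
      Int.ediv_eq_zero_of_lt (by omega) h1]
  have l1 := hl σ (T' + 1) c Z c' Z' d S _ _ s3 hJ (by rw [d3, d4]; exact m1)
    (by rw [d3, d4]; exact m5) (by rw [d3, d4]; exact m2) s4 (fun a b => by rw [s5, s5])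
    (fun t ht z hz => by
      rw [s5, d4]
      exact m4 t (by omega) z hz)
  have k1 : (d.R - d.L).toNat = n + 1 := by omega
  rw [k1, d3, d4] at l1
  rw [d3, d4] at s8
  refine l1.trans (Nat.add_le_add_left ?_ _)
  rw [mul_assoc Cl]
  refine Nat.mul_le_mul_left Cl ?_
  have b1 : TV.sw (n + 1) (4 * m) (fun t => insert ((a (t / 4) : ℤ) + h)
      (PP (σ + 1) m (fun i => (a i : ℤ) + h) s E t)) ≤ n + 1 + 5 * (4 * m +
      ∑ t ∈ range (4 * m), #(PP (σ + 1) m (fun i => (a i : ℤ) + h) s E t)) := by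
    unfold TV.sw
    refine Nat.add_le_add ?_ (Nat.mul_le_mul_left _ ?_)
    · simp [m3]
    · refine (sum_le_sum (g := fun t => 1 + #(PP (σ + 1) m (fun i => (a i : ℤ) + h) s E t))
        fun t _ => ?_).trans ?_
      · refine le_trans (Nat.size_le.2 Nat.lt_two_pow_self) ?_
        rw [add_comm 1]
        exact card_insert_le _ _
      · rw [sum_add_distrib, sum_const, card_range, smul_eq_mul, mul_one]
  have b2 : Nat.size (ht S) + 1 ≤ (Cb + 7) * g := by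
    have h1 : ht S < 2 ^ (g + 3 + Cb + (g + 1)) := by
      unfold ht
      rw [s1, pow_add, pow_add (2 : ℕ) (g + 3), mul_assoc]
      refine Nat.mul_lt_mul_of_lt_of_le Nat.lt_two_pow_self (s2.trans ?_) (by positivity)
      exact Nat.mul_le_mul_right _ Nat.lt_two_pow_self.le
    have h2 := Nat.size_le.2 h1
    have h3 : Cb ≤ Cb * g := Nat.le_mul_of_pos_right _ g1
    rw [add_mul]
    omega
  have b3 : (n + 1 + 4 * m) * (S.J + 1) * (Nat.size (ht S) + 1) ^ 7 ≤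
      16 * (Cb + 7) ^ 7 * ((n + m) * g ^ 8) :=
    calc _ ≤ (4 * (n + m)) * (4 * g) * ((Cb + 7) * g) ^ 7 :=
          Nat.mul_le_mul (Nat.mul_le_mul (by omega) (by omega)) (Nat.pow_le_pow_left b2 7)
      _ = _ := by ring
  have b4 : (n + m) * g ≤ (n + m) * g ^ 8 :=
    Nat.mul_le_mul_left _ (Nat.le_self_pow (by norm_num) g)
  have b5 : n + m ≤ (n + m) * g := Nat.le_mul_of_pos_right _ g1
  have b6 : 4 * m * (g + 1 + 2) ≤ 16 * ((n + m) * g) :=
    calc _ ≤ (4 * (n + m)) * (4 * g) := Nat.mul_le_mul (by omega) (by omega)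
      _ = _ := by ring
  have b7 : (n + 1 + #E) * 2 ^ (g + 1) ≤ 8 * (n * (u + 1)) + 4 * (#E * (u + 1)) :=
    calc _ ≤ (2 * n + #E) * (4 * (u + 1)) := Nat.mul_le_mul (by omega) (by omega)
      _ = _ := by ring
  have b8 : (G 1 + 1) * m + P ≤ (G 1 + 1) * (m + P) := by
    rw [mul_add]
    exact Nat.add_le_add_left (Nat.le_mul_of_pos_left _ (by omega)) _
  generalize (n + m) * g ^ 8 = X at *
  generalize n * (u + 1) = Y at *
  generalize #E * (u + 1) = U at *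
  obtain ⟨H, hH⟩ : ∃ H, H = V + X + Y + U + P := ⟨_, rfl⟩
  rw [← hH]
  have c0 : Cq * ((G 1 + 1) * m + P) ≤ Cq * ((G 1 + 1) * H) :=
    Nat.mul_le_mul_left _ (b8.trans (Nat.mul_le_mul_left _ (by omega)))
  have c1 : Ca * (V + m + (n + 1 + #E) * 2 ^ (g + 1)) ≤ Ca * (8 * H) :=
    Nat.mul_le_mul_left _ (by omega)
  have c2 : D * H = Ca * (8 * H) + Cq * ((G 1 + 1) * H) + 4 * H := by rw [hD]; ring
  generalize NU.MM (fun q => (a (q / 4) : ℤ) + h) n (4 * m) (g + 1) = M1 at *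
  have c3 : Cb * (4 * m * (g + 1 + 2) + M1) ≤ Cb * (16 * H + D * H) :=
    Nat.mul_le_mul_left _ (by omega)
  have c4 : 16 * (Cb + 7) ^ 7 * X ≤ 16 * (Cb + 7) ^ 7 * H := Nat.mul_le_mul_left _ (by omega)
  have c5 : (16 * (Cb + 7) ^ 7 + Cb * (16 + D) + 22 + 6 * D) * H =
      16 * (Cb + 7) ^ 7 * H + Cb * (16 * H + D * H) + 22 * H + 6 * (D * H) := by ring
  omega

theorem loc0 {A B : ℕ} {wt R G : ℕ → ℕ} (hwt : Wt A wt R) (hT : S_LQ wt)
    (hG : ∀ l, R (l + 1) ≤ B * (G l + 1)) (hmo : Monotone G) (hABS : S_ABS) (hWARM : S_WARM)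
    (hMIR : S_MIR) (hBUD : S_BUD) (hMKA : S_MKA) (hMKB : S_MKB) (hAVA : S_AVA) (hAVC : S_AVC)
    (hALGA : NU.S_ALGA) (hBRG : NU.S_BRG) (hTURN : NU.S_TURN) : S_LOC G := by
  obtain ⟨C, hC⟩ := run hwt hT hG hmo hABS hWARM hMIR hBUD hMKA hMKB hAVA hAVC
  refine ⟨C + 160, fun n u m T a s v E h2 h3 hw => ?_⟩
  rcases Nat.eq_zero_or_pos n with rfl | hn
  · rcases Nat.eq_zero_or_pos m with rfl | hm
    · simp [cost]
    · have := h3 0 hm
      omega
  obtain ⟨h, key⟩ := hC n u m a s v E hn h3 hw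
  have c1 := TV.cost_half T a m
  have c2 := TV.cost_half T (fun i => a (i / 2)) (2 * m)
  have e1 : (fun i => a (i / 2 / 2)) = fun q => a (q / 4) := by
    funext q
    rw [Nat.div_div_eq_div_mul]
  have e2 : 2 * (2 * m) = 4 * m := by omega
  simp only [e1, e2] at c2
  have k4 : n + m ≤ (n + m) * (Nat.log 2 (u + 1) + 1) ^ 8 :=
    Nat.le_mul_of_pos_right _ (by positivity)
  generalize (n + m) * (Nat.log 2 (u + 1) + 1) ^ 8 = X at k4 key ⊢
  generalize ∑ i ∈ (range m).filter (fun i => i ∉ E), (v i + 1) = V at key ⊢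
  generalize n * (u + 1) = D at key ⊢
  generalize #E * (u + 1) = F at key ⊢
  generalize ∑ i ∈ E, G (Nat.log 2 (Nat.dist (a i) (a (i - 1)) + 1)) = P at key ⊢
  obtain ⟨d, d1, d2, d3, d4, d5, d6, d7, d8⟩ :=
    hBRG n (4 * m) h T (fun q => a (q / 4)) h2 fun i hi => h3 _ (by omega)
  obtain ⟨e, e1, e2, e3, e4⟩ := hALGA d d5
  have t := hTURN d e d5 e2 e1 d6 d7
  obtain ⟨f1, f2, f3, f4⟩ := e1
  have l1 := key d d5 d1 d2 d3 d4
  have l2 := key e e2 (f1.trans d1) (f2.trans d2) (f3.trans d3) (f4.trans d4)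
  rw [f3, d3] at e3 e4
  have k3 : (d.R - d.L).toNat = n + 1 := by omega
  rw [k3, d3] at t
  have k5 : (C + 160) * (V + X + D + F + P) =
      C * (V + X + D + F + P) + 160 * (V + X + D + F + P) := by ring
  omega

theorem loc (h : WQ.S_EPS) (hABS : S_ABS) (hWARM : S_WARM)
    (hMIR : S_MIR) (hBUD : S_BUD) (hMKA : S_MKA) (hMKB : S_MKB) (hAVA : S_AVA) (hAVC : S_AVC)
    (hALGA : NU.S_ALGA) (hBRG : NU.S_BRG) (hTURN : NU.S_TURN) (q : ℕ) (hq : 2 ≤ q) :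
    S_LOC (gq q) := by
  obtain ⟨wt, D, h1, hs, hT⟩ := h q hq
  have hw : Wt 4 (fun k => if k = 0 then 0 else wt k) fun l => 2 * D * gq q l := by
    refine ⟨if_pos rfl, fun k hk => ?_, fun l => ?_, fun l e hl => ?_⟩
    · rw [if_neg (by omega)]
      exact h1 k hk
    · rcases Nat.eq_zero_or_pos l with rfl | hl
      · simp
      have h2 := WQ.gq_pos q l hl
      have h3 : ∑ k ∈ range (l + 1), (if k = 0 then 0 else wt k) ≤ ∑ k ∈ range (l + 1), wt k :=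
        sum_le_sum fun k _ => by split_ifs <;> omega
      refine h3.trans ((hs l).trans ?_)
      rw [mul_comm 2 D, mul_assoc]
      exact Nat.mul_le_mul_left _ (by omega)
    · refine (Nat.mul_le_mul_left _ (WQ.gq_grow (by omega) l e hl)).trans (le_of_eq ?_)
      ring
  refine loc0 (B := 128 * D) hw (WQ.lq_zero hT) (fun l => ?_) (WQ.gq_mono q) hABS hWARM hMIR hBUD
    hMKA hMKB hAVA hAVC hALGA hBRG hTURN
  have h4 : gq q (l + 1) ≤ 64 * (gq q l + 1) := by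
    rcases Nat.eq_zero_or_pos l with rfl | hl
    · simp [gq]
    · have := WQ.gq_grow (q := q) (by omega) l 1 hl
      omega
  calc 2 * D * gq q (l + 1) ≤ 2 * D * (64 * (gq q l + 1)) := Nat.mul_le_mul_left _ h4
    _ = _ := by ring

end Pool.Agent.P.MP_119182_lc.AF
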