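import Pool.Agent.P.MP_119182_lc.AE.All
import Pool.Agent.P.MP_119182_lc.LQ.All
import Pool.Agent.P.MP_119182_lc.AF.Run
import Pool.Agent.P.MP_119182_lc.AF.End48

/-! The bound with jumps, assembled. -/

set_option autoImplicit false

namespace Pool.Agent.P.MP_119182_lc.AF

open Finset
open scoped Classical

theorem locp (h : ∀ q, 2 ≤ q → S_LOC (WQ.gq q)) : S_LOCP := by
  intro ε hε
  obtain ⟨q0, hq0⟩ := exists_nat_one_div_lt hε
  have hq : 1 / ((q0 + 2 : ℕ) : ℝ) ≤ ε := by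
    refine le_trans (one_div_le_one_div_of_le (by positivity) ?_) hq0.le
    push_cast
    linarith
  obtain ⟨C, hC⟩ := h (q0 + 2) (by omega)
  refine ⟨C, fun n u m T a s v E k1 k2 k3 => ?_⟩
  have k4 := hC n u m T a s v ((range m).filter fun i => i ∈ E) k1 k2 fun i hi hE =>
    k3 i hi fun e => hE (mem_filter.2 ⟨mem_range.2 hi, e⟩)
  have e : (range m).filter (fun i => i ∉ (range m).filter fun i => i ∈ E) =
      (range m).filter fun i => i ∉ E :=
    filter_congr fun i hi => by rw [mem_filter, not_and, forall_prop_of_true hi]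
  rw [e] at k4
  have k5 : #((range m).filter fun i => i ∈ E) * (u + 1) ≤ #E * (u + 1) :=
    Nat.mul_le_mul_right _ (card_le_card fun i hi => (mem_filter.1 hi).2)
  refine (Nat.cast_le.2 (k4.trans (Nat.mul_le_mul_left _ (Nat.add_le_add_right
    (Nat.add_le_add_left k5 _) _)))).trans ?_
  rw [Nat.cast_mul, Nat.cast_add _ (∑ i ∈ _, WQ.gq _ _)]
  refine mul_le_mul_of_nonneg_left (add_le_add le_rfl ?_) (Nat.cast_nonneg _)
  rw [Nat.cast_sum]
  exact sum_le_sum fun i _ => WQ.gq_real (by omega) hq _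

theorem a_ENDP : S_ENDP :=
  p_ENDP (locp (loc LQ.a_EPS AE.a_ABS AE.a_WARM AE.a_MIR AE.a_BUD AE.a_MKA AE.a_MKB AE.a_AVA
    AE.a_AVC (NU.p_ALGA NU.p_EMIR) NU.p_BRG
    (NU.p_TURN NU.p_EMIR NU.p_WCNT NU.p_TSPL NU.p_NS (NU.p_DBL NU.p_LW)))) AD.a_FIN

end Pool.Agent.P.MP_119182_lc.AF
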