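import Pool.Agent.P.MP_119182_lc.AE.IfaceB
import Pool.Agent.P.MP_119182_lc.WQ.End

/-! The exceptional accesses pay for their jump. -/

set_option autoImplicit false

namespace Pool.Agent.P.MP_119182_lc.AF

open Finset
open scoped Classical
open AE

/-- The bound with witnesses; the price of a jump of binary length `l` is `G l`. -/
def S_LOC (G : ℕ → ℕ) : Prop :=
  ∃ C : ℕ, ∀ (n u m : ℕ) (T : BT) (a s v : ℕ → ℕ) (E : Finset ℕ), T.keys = List.range' 1 n →
    (∀ i < m, 1 ≤ a i ∧ a i ≤ n) → Wit u m a s v E →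
    cost T ((List.range m).map a) ≤
      C * (∑ i ∈ (range m).filter (fun i => i ∉ E), (v i + 1) +
        (n + m) * (Nat.log 2 (u + 1) + 1) ^ 8 + n * (u + 1) + #E * (u + 1) +
        ∑ i ∈ E, G (Nat.log 2 (Nat.dist (a i) (a (i - 1)) + 1)))

end Pool.Agent.P.MP_119182_lc.AF
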